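import Pool.Agent.U919.BC.Pla

/-!
# Surjectivity of the Stolz index map for groups of polynomial automorphisms

`BCClass C` (helper74) says that the class `C` of groups has the closure properties which are known for
the class of the groups all of whose countable subgroups satisfy the Baum-Connes conjecture with
coefficients: subgroups; groups whose finitely generated subgroups are in `C` (unions); virtually solvable
groups (Higson, Kasparov); extensions such that the quotient and the preimages of its finite subgroups
are in `C`, and groups acting on trees with stabilizers in `C` (Oyono-Oyono); `GL_2(K)` for all fields `K`
(Guentner, Higson, Weinberger; Higson, Kasparov). For countable groups in such a class `C` the real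
assembly map is an isomorphism (Baum, Karoubi), so that the map `θ` of Q1 is surjective.

`PA n R` is the group of the automorphisms of the algebra `R[x_1, ..., x_n]` over the commutative ring `R`;
nilpotent elements and zero divisors are allowed.

(1) (any number of variables) A group `Γ` of automorphisms of `R[x_1, ..., x_n]` is in `C` if for every
homomorphism from `R` to a field `K` its image in the group of automorphisms of `K[x_1, ..., x_n]` is
in `C`.

(2) A group `Γ` of automorphisms of `R[x, y]` is in `C` if all these images are contained in the groups
`tame K` generated by the affine and the triangular automorphisms. By the theorem of Jung and van der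
Kulk this condition always holds, so this concerns all groups of automorphisms of `R[x, y]`.

(3) Without this theorem: the group `tame R` generated by the affine and the triangular automorphisms
of `R[x, y]` is in `C` for every commutative ring `R`, and the group of ALL automorphisms of `R[x, y]` is in
`C` for every commutative `ℚ`-algebra `R` (Jung's theorem in characteristic zero is in the starting library);
it contains for instance Nagata's wild automorphism. The group of all automorphisms of `R[x]` is in `C`
for every commutative ring `R`.

(4) A group `G` is in `C` if the intersection of the kernels of finitely many homomorphisms from `G` to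
groups as in (3) is contained in a solvable subgroup.

Outline of the proof (the library `U722/TT` of helper722 for another class of groups, where directed
colimits are used; here only unions). For a finitely generated group `Γ` the coefficients lie in a
finitely generated subring `B` of `R`, which is noetherian. The minimal primes of `B` are restrictions of
primes of `R`. The automorphisms in `Γ` which are trivial over all these residue fields are trivial modulo
the nilradical of `B`, hence they form a solvable group. Over a field the affine and the triangular group
generate their amalgamated product, which acts on a tree (library of helper293); the triangular group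
is solvable and the affine group is an extension of `GL_2(K)` by an abelian group.
-/

set_option autoImplicit false

namespace Pool.Agent.Results.MP_b169d2_gt.AffinePlaneGroups

open Pool.Agent.U74.BCC (BCClass)
open Pool.Agent.U722.TT (PA bc tame)

/-- a group of automorphisms of a polynomial ring over a commutative ring is in `C` if its images over
all fields are in `C` -/
def FieldsDecide (C : ∀ (G : Type) [Group G], Prop) : Prop :=
  ∀ (n : ℕ) (R : Type) [CommRing R] (Γ : Subgroup (PA n R)),
    (∀ (K : Type) [Field K] (φ : R →+* K), C ↥(Γ.map (bc φ))) → C ↥Γ

/-- a group of automorphisms of `R[x, y]` is in `C` if its images over all fields are contained in the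
tame groups -/
def TameImages (C : ∀ (G : Type) [Group G], Prop) : Prop :=
  ∀ (R : Type) [CommRing R] (Γ : Subgroup (PA 2 R)),
    (∀ (K : Type) [Field K] (φ : R →+* K), Γ.map (bc φ) ≤ tame K) → C ↥Γ

/-- the groups `tame R`, `R` any commutative ring, the groups of all automorphisms of `R[x, y]`, `R` a
commutative ring containing an image of `ℚ`, and the groups of all automorphisms of `R[x]` -/
inductive Plane : (Q : Type) → [Group Q] → Prop
  | tame (R : Type) [CommRing R] : Plane ↥(tame R)
  | all (R : Type) [CommRing R] (j : ℚ →+* R) : Plane (PA 2 R)
  | line (R : Type) [CommRing R] : Plane (PA 1 R)

/-- Let `C` be a class of groups with the closure properties `BCClass C`. (1) A group of automorphisms of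
`R[x_1, ..., x_n]` is in `C` if for each homomorphism from `R` to a field its image over this field is
in `C`. (2) A group of automorphisms of `R[x, y]` is in `C` if its images over all fields are contained in
the tame groups. (3) All groups in `Plane` are in `C`. (4) `G` is in `C` if the intersection of the
kernels of finitely many homomorphisms from `G` to groups in `Plane` is contained in a solvable
subgroup. -/
theorem result (C : ∀ (G : Type) [Group G], Prop) (hC : BCClass C) :
    FieldsDecide C ∧ TameImages C ∧ (∀ (Q : Type) [Group Q], Plane Q → C Q) ∧
    ∀ (G : Type) [Group G] (n : ℕ) (Q : Fin n → Type) [∀ i, Group (Q i)], (∀ i, Plane (Q i)) →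
      ∀ (f : ∀ i, G →* Q i) (S : Subgroup G), Group.IsSolvable S →
        (∀ x : G, (∀ i, f i x = 1) → x ∈ S) → C G := by
  have key : ∀ (Q : Type) [Group Q], Plane Q → C Q := by
    intro Q _ h
    induction h with
    | tame R => exact Pool.Agent.U919.BC.plane_tame hC R
    | all R j => exact Pool.Agent.U919.BC.all_rat hC R j
    | line R => exact Pool.Agent.U919.BC.one_ring hC R
  refine ⟨fun _ _ _ Γ h => Pool.Agent.U919.BC.red hC Γ (fun J _ => h _ (Pool.Agent.U722.TT.rf J)),
    fun _ _ Γ h => Pool.Agent.U919.BC.plane hC Γ (fun J _ => h _ (Pool.Agent.U722.TT.rf J)), key, ?_⟩
  intro G _ n Q _ hQ f S hS hf
  obtain ⟨P, _, φ, hP, hφ⟩ := hC.multi Finset.univ Q f fun i => key _ (hQ i)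
  refine hC.sol φ hP ?_
  have hle : φ.ker ≤ S := fun x hx => hf x fun i => (hφ x).1 hx i (Finset.mem_univ i)
  exact Group.isSolvable_of_isSolvable_injective (f := Subgroup.inclusion hle)
    (Subgroup.inclusion_injective _)

end Pool.Agent.Results.MP_b169d2_gt.AffinePlaneGroups
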