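import Pool.Agent.U919.BC.Oq

/-!
# Surjectivity of the Stolz index map for groups of isometries over polynomial rings

`BCClass C` (helper74) says that the class `C` of groups has the closure properties which are known for
the class of the groups all of whose countable subgroups satisfy the Baum-Connes conjecture with
coefficients: subgroups; groups whose finitely generated subgroups are in `C` (unions); virtually solvable
groups (Higson, Kasparov); extensions such that the quotient and the preimages of its finite subgroups
are in `C`, and groups acting on trees with stabilizers in `C` (Oyono-Oyono); `GL_2(K)` for all fields `K`
(Guentner, Higson, Weinberger; Higson, Kasparov). For countable groups in such a class `C` the real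
assembly map is an isomorphism (Baum, Karoubi), so that the map `θ` of Q1 is surjective.

Let `q` be an anisotropic quadratic form over a field `k`, in any number of variables and in any
characteristic. A group of isometries of `x y + q(z)` over `k[X]` is in `C` if its image at `X = 0` is; in
particular all groups of isometries over `k[X]` whose image at `X = 0` is solvable, or finite, or a
subgroup of some `GL_2(K)`, are in `C`, for instance the congruence subgroup of the isometries which are
trivial at `X = 0`. The same for rings with a degree function and a retraction to the ring of the
elements of degree zero.

Outline of the proof. The isometries over `k` and the stabilizer of an isotropic line with entries of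
degree zero on the diagonal generate their amalgamated product, which acts on a tree. The
stabilizers in a group `H` are extensions of subgroups of the image of `H` at `X = 0` by abelian
groups (groups of Siegel transformations). For the groups `GL_2` compare `NoncommutativeLinearGroups`
(helper563) and `TwoDimensionalGroups` (helper74).
-/

set_option autoImplicit false

namespace Pool.Agent.Results.MP_b169d2_gt.IsometryGroups

open Pool.Agent.U74.BCC (BCClass)
open Pool.Agent.U919.OQ Pool.Agent.U919.OQ.Law

/-- Let `C` be a class of groups with the closure properties `BCClass C`. Let `S` be a commutative ring
with a degree function and a retraction onto the ring `R` of the elements of degree zero, let `q` be a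
quadratic form over `R` in finitely many variables which is anisotropic over `S` with respect to the
degree.

* A group of matrices over `S`, contained in the group generated by the isometries of `x y + q(z)` over
  `R` and the Siegel transformations over `S`, is in `C` if its image under the retraction is in `C` or
  trivial.
* For every group `A` of isometries of `x y + q(z)` over `R`: the group generated by `A` and the Siegel
  transformations over `R` is in `C` iff the one generated by `A` and the Siegel transformations over `S`
  is.
* An example are the polynomial rings over domains `R` and the forms `q` which are anisotropic over `R`.
* If `k` is a field and `q` is anisotropic over `k`, then a group of isometries of `x y + q(z)` over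
  `k[X]` is in `C` if its image at `X = 0` is in `C` or trivial; the group of all isometries over `k[X]` is
  in `C` iff the group of all isometries over `k` is, and it is in `C` if `k` is finite. -/
theorem result (C : ∀ (G : Type) [Group G], Prop) (hC : BCClass C) :
    Subgroups C ∧ Extensions C ∧ Polynomials ∧ Fields C :=
  ⟨Pool.Agent.U919.BC.Oq.subgroups hC, Pool.Agent.U919.BC.Oq.extensions hC,
    Pool.Agent.U919.BC.Oq.polynomials, Pool.Agent.U919.BC.Oq.fields hC⟩

end Pool.Agent.Results.MP_b169d2_gt.IsometryGroups
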