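import Mathlib
import Pool.Agent.U563.BC.K

/-!
# Groups of matrices of size two over noncommutative rings and the conjecture of Baum and Connes

Let `C` be the class of all groups whose countable subgroups satisfy the conjecture of Baum and
Connes with coefficients. It is published that `C` has the closure properties `BCClass C`: it is
closed under subgroups, it contains the amenable groups (Higson-Kasparov) and the groups `GL_2(K)`
for all fields `K` (Guentner-Higson-Weinberger), it contains the groups acting on trees with
stabilizers in `C`, and `G` if there is a homomorphism to a member such that the preimages of the
finite subgroups are members (Oyono-Oyono). For a countable group of `C` the real assembly map is an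
isomorphism as well (Baum-Karoubi), so that the map `θ` of Stolz is surjective.

(1) The groups `GL_2(R)` are in `C` for all rings `R` of the class `Tame`: subrings of skew
Laurent polynomial rings and of skew polynomial rings (with a derivation) over commutative fields,
finite products, and extensions by ideals with square zero.

(2) Let `S` be a ring with a degree function and `R` the ring of the elements of degree zero. A group
`A` of matrices over `R` which contains the elementary matrices `(1 r; 0 1)` is in `C` if and only if
the group generated by `A` and the matrices `(1 s; 0 1)` with `s` in `S` is in `C`; the groups
`GE_2(S)` and `GE_2(R)` are in `C` or not in `C` together.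

Outline of the proof of (1) for a skew Laurent polynomial ring `R` with coefficients in `K`. Let `S`
be the ring of the elements of nonnegative order. Euclid's algorithm shows that each invertible
matrix over `R` is the product of a triangular matrix and of an element of `GL_2(S)`. It follows
that the order of the determinant (which is defined by the smallest orders of the entries of the
matrix and of its inverse) is a homomorphism, and that its kernel is generated by `GL_2(S)` and its
conjugate with the diagonal matrix with entries `1` and `t`. The smallest orders of the entries are
level functions on the cosets of these two groups, with which one shows that their graph is a tree.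
The group `GL_2(S)` acts on the tree of (2), with stabilizers `GL_2(K)` and metabelian groups.
-/

namespace Pool.Agent.Results.MP_b169d2_gt.NoncommutativeLinearGroups

open Pool.Agent.U919.GE Pool.Agent.U563.BC

/-- Let `C` be a class of groups with the closure properties `BCClass C` (for instance the class of
the groups whose countable subgroups satisfy the conjecture of Baum and Connes with coefficients).
(1) `GL_2(R)` is in `C` for all rings `R` in the class `Tame`. (2) Let `d` be a degree function on
the ring `S` such that `R` is isomorphic (by `j`) to the ring of the elements of degree zero. A
subgroup `A` of `GL_2(R)` which contains the matrices `(1 r; 0 1)` is in `C` if and only if the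
group generated by `A` and the matrices `(1 s; 0 1)` with `s` in `S` is in `C`. (3) `GE_2(S)` is in
`C` if and only if `GE_2(R)` is. -/
theorem result (C : ∀ (G : Type) [Group G], Prop) (hC : BCClass C) :
    (∀ (R : Type) [Ring R], Tame R → C (G2 R)) ∧
    (∀ (R S : Type) [Ring R] [Ring S] (j : R →+* S) (d : S → ℕ), Deg j d →
      (∀ A : Subgroup (G2 R), (∀ r, up r ∈ A) → (C ↥(A.map (mp j) ⊔ U2 S) ↔ C A)) ∧
      (C ↥(GE2 S) ↔ C ↥(GE2 R))) := by
  refine ⟨fun R _ h => h.mem hC, fun R S _ _ j d h => ⟨fun A hA => hC.gen_iff h A hA, ?_⟩⟩
  have h1 := hC.gen_iff h (GE2 R) (fun r => E2_le_GE2 (up_mem_E2 r))
  rwa [GE2_eq h] at h1

end Pool.Agent.Results.MP_b169d2_gt.NoncommutativeLinearGroups
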