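import Pool.Agent.U74.BCC.Tr
import Pool.Agent.U670.GEEx

/-!
# Surjectivity of the Stolz index map for groups of `2 × 2` matrices over rings

`BCClass C` says that the class `C` of groups has the closure properties which are known for the class of
the groups all of whose countable subgroups satisfy the Baum-Connes conjecture with coefficients:
subgroups; groups whose finitely generated subgroups are in `C` (unions); virtually solvable groups
(Higson, Kasparov); extensions such that the quotient and the preimages of its finite subgroups are in
`C`, and groups acting on trees with stabilizers in `C` (Oyono-Oyono); `GL_2(K)` for all fields `K`, whose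
countable subgroups have the Haagerup property (Guentner, Higson, Weinberger; Higson, Kasparov).

Let `G` be a group with homomorphisms to finitely many groups of the following kinds (`TwoDim`), such that
the intersection of the kernels is solvable:

* `GL_2(R)`, `R` any commutative ring (nilpotent elements and zero divisors are allowed);
* `GE_2(A)`, the group generated by the elementary and invertible diagonal matrices, for an
  algebra `A` over a field `K` with a degree function (`deg (x y) = deg x + deg y`,
  `deg (x + y) ≤ max (deg x, deg y)`, and the elements of degree zero are those of `K`), commutative or
  not. Examples: free algebras, Weyl algebras, enveloping algebras of Lie algebras, polynomial rings.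

Theorem: `G` is in `C`. Thus the countable groups `G` of this kind satisfy the Baum-Connes conjecture with
coefficients, the real assembly map of `G` is an isomorphism (Baum, Karoubi), and the map `θ` of Q1 is
surjective. There are no conditions of finite generation on the rings.

Outline of the proof. For a noetherian commutative ring `R` the maps to the residue fields of the minimal
primes give homomorphisms of `GL_2(R)` to finitely many groups `GL_2(K)`; the matrices in all the
kernels are congruent to one modulo the nilradical `N`, which is nilpotent. They form a solvable group,
as commutators of matrices congruent to one modulo `J` are congruent to one modulo `J²`. Products and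
extensions by solvable groups are dealt with by the closure under extensions. A finitely
generated subgroup of `GL_2(R)` for any `R` is contained in `GL_2` of a noetherian subring. The group
`GE_2(A)` is contained in a group which acts on a tree with stabilizers which embed in `GL_2(K)` and in the
group of the upper triangular matrices over `A` with diagonal entries in `K`, which is solvable (even
if `A` is not commutative). The tree is constructed from level functions in `U670`.
-/

set_option autoImplicit false

namespace Pool.Agent.Results.MP_b169d2_gt.TwoDimensionalGroups

open Pool.Agent.U74.BCC (BCClass)
open Pool.Agent.U670.GE (IsDegree GE2)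

/-- the groups `GL_2(R)`, `R` a commutative ring, and `GE_2(A)`, `A` an algebra over a field with a degree
function -/
inductive TwoDim : (Q : Type) → [Group Q] → Prop
  | gl (R : Type) [CommRing R] : TwoDim (Matrix.GeneralLinearGroup (Fin 2) R)
  | ge (K A : Type) [Field K] [Ring A] [Algebra K A] (deg : A → ℕ) (h : IsDegree K A deg) :
      TwoDim ↥(GE2 A)

/-- Let `C` be a class of groups with the closure properties `BCClass C`. (1) If the intersection of the
kernels of finitely many homomorphisms from `G` to groups in `TwoDim` is contained in a solvable
subgroup, then `G` is in `C`. (2) In particular `GL_2(R)` is in `C` for every commutative ring `R`, and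
`GE_2(A)` for every free algebra `A` over a field. -/
theorem result (C : ∀ (G : Type) [Group G], Prop) (hC : BCClass C) :
    (∀ (G : Type) [Group G] (n : ℕ) (Q : Fin n → Type) [∀ i, Group (Q i)], (∀ i, TwoDim (Q i)) →
      ∀ (f : ∀ i, G →* Q i) (S : Subgroup G), Group.IsSolvable S →
        (∀ x : G, (∀ i, f i x = 1) → x ∈ S) → C G) ∧
    (∀ (R : Type) [CommRing R], C (Matrix.GeneralLinearGroup (Fin 2) R)) ∧
    ∀ (K X : Type) [Field K], C ↥(GE2 (FreeAlgebra K X)) := by
  have key : ∀ (Q : Type) [Group Q], TwoDim Q → C Q := by
    intro Q _ h
    induction h with
    | gl R => exact U74.BCC.gl2_ring hC R
    | ge K A deg h => exact U74.BCC.ge2_bc hC h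
  refine ⟨?_, fun R _ => key _ (TwoDim.gl R), ?_⟩
  · intro G _ n Q _ hQ f S hS hf
    obtain ⟨P, _, φ, hP, hφ⟩ := hC.multi Finset.univ Q f fun i => key _ (hQ i)
    refine hC.sol φ hP ?_
    have hle : φ.ker ≤ S := fun x hx => hf x fun i => (hφ x).1 hx i (Finset.mem_univ i)
    exact Group.isSolvable_of_isSolvable_injective (f := Subgroup.inclusion hle)
      (Subgroup.inclusion_injective _)
  · intro K X _
    exact key _ (TwoDim.ge K _ _ (U670.GE.deg_freeAlgebra K X))

end Pool.Agent.Results.MP_b169d2_gt.TwoDimensionalGroups
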